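import Pool.Agent.PFC.StmtsB7
import Pool.Agent.Helper43_AT3.QT2
import Pool.Agent.Helper97_K9.ORB
import Pool.Agent.Helper69_K9.Fmg
import Pool.Agent.Helper63_PP.Smt
import Pool.Agent.Helper74_PP.Brt
import Pool.Agent.Helper47_PP.Osi

/-!
# Squad PFC, block B7, row LIX: the inertial index in central quotients
-/

open scoped BigOperators

noncomputable section

namespace Pool.Agent.PFC.H22

open Pool.Agent.Helper51_AWC Pool.Agent.Helper79_WRA Pool.Agent.PP Pool.Agent.PP.KF
open Pool.Agent.PP.K9 Pool.Agent.PP.K9.H97 Pool.Agent.PP.H75 Pool.Agent.PP.T3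
open Pool.Agent.PP.T3.H43 hiding push_add

attribute [local instance] Ideal.Quotient.field

set_option linter.unusedSectionVars false

section index

variable {G A : Type} [Group G] [Group A] [Finite A]

/-- comparison of indices -/
theorem relIndex_le_of (C T : Subgroup G) (K T' : Subgroup A) (f : G → A)
    (h1 : ∀ t ∈ T, f t ∈ T')
    (h2 : ∀ t ∈ T, ∀ s ∈ T, (f t)⁻¹ * f s ∈ K → t⁻¹ * s ∈ C) : C.relIndex T ≤ K.relIndex T' := by
  classical
  unfold Subgroup.relIndex Subgroup.index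
  refine Nat.card_le_card_of_injective
    (fun a : T ⧸ C.subgroupOf T =>
      (QuotientGroup.mk ⟨f (a.out : T), h1 _ (a.out : T).2⟩ : T' ⧸ K.subgroupOf T')) ?_
  intro a b hab
  have h3 := QuotientGroup.eq.1 hab
  rw [Subgroup.mem_subgroupOf] at h3
  have h4 := h2 _ (a.out : T).2 _ (b.out : T).2 h3
  have h5 : (QuotientGroup.mk (a.out) : T ⧸ C.subgroupOf T) = QuotientGroup.mk b.out := by
    rw [QuotientGroup.eq, Subgroup.mem_subgroupOf]
    exact h4
  rwa [QuotientGroup.out_eq', QuotientGroup.out_eq'] at h5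

end index

/-- (b): central idempotents of `F K` are supported on a subgroup which contains the powers
`x ^ ℓ ^ n`. -/
theorem supp_sub {ℓ : ℕ} {F : Type} [Field F] (hF : GoodF ℓ F) {A : Type} [Group A] [Finite A]
    {K R : Subgroup A} (n : ℕ) (h : ∀ x ∈ K, x ^ ℓ ^ n ∈ R) {a : A → F} (ha : Ix K a) :
    ∀ x, x ∉ R → a x = 0 := by
  intro x hx
  by_cases hK : x ∈ K
  · have h1 : ¬ Reg ℓ (⟨x, hK⟩ : K) := by
      intro hr
      apply hx
      have hr' : (orderOf x).Coprime ℓ := by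
        unfold Reg at hr
        rwa [← Subgroup.orderOf_coe] at hr
      obtain ⟨m, hm⟩ := exists_pow_eq_self_of_coprime (Nat.Coprime.pow_left n hr'.symm)
      rw [← hm]
      exact R.pow_mem (h x hK) m
    exact H47O.osi H63.sma H74.rgl ℓ F hF K (fun t : K => a t) ha.idem ⟨x, hK⟩ h1
  · exact ha.supp x hK

section res

variable {F G A : Type} [Field F] [Group G] [Finite G] [Group A] [Finite A]

/-- the image of a function supported on a subgroup -/
theorem push_sub {C : Subgroup G} (p : G →* A) {a : G → F} (ha : ∀ x, x ∉ C → a x = 0) :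
    push p a = push (p.comp C.subtype) (fun t : C => a t) := by
  classical
  have := Fintype.ofFinite G
  have := Fintype.ofFinite C
  funext y
  rw [push_eq, push_eq]
  symm
  refine Fintype.sum_of_injective (fun x : C => (x : G)) Subtype.val_injective _ _ ?_ ?_
  · intro x hx
    have h1 : x ∉ C := fun h => hx ⟨⟨x, h⟩, rfl⟩
    rw [ha _ h1, ite_self]
  · intro x
    rfl

end res

/-- row LIX -/
theorem lix (psg : T3.PsgStmt) (inx : K9.InxStmt) : LixStmt := by
  intro ℓ _ M _ hM G _ _ e V γ hLd A _ _ p hp hker hkz γ' hLd'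
  classical
  have hF : GoodF ℓ (FF M) := H50.fld ℓ Fact.out M hM
  obtain ⟨C, hC⟩ : ∃ C : Subgroup G, C = Subgroup.centralizer (V : Set G) := ⟨_, rfl⟩
  have hVp : IsPGroup ℓ V := hLd.tp.pg
  have he : IsIdem e := hLd.blk.1
  have hCN : C ≤ Subgroup.normalizer (V : Set G) := by
    rw [hC]
    exact Subgroup.centralizer_le_normalizer _
  -- the homomorphism on the centraliser
  obtain ⟨q, hq⟩ : ∃ q : C →* A, q = p.comp C.subtype := ⟨_, rfl⟩
  have hqk : ∀ c : C, c ∈ q.ker → (c : G) ∈ p.ker := by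
    intro c hc
    rw [hq] at hc
    exact hc
  have hqc : q.ker ≤ Subgroup.center C := by
    intro c hc
    rw [Subgroup.mem_center_iff]
    intro d
    apply Subtype.ext
    exact Subgroup.mem_center_iff.1 (hkz (hqk c hc)) d
  have hqp : IsPGroup ℓ q.ker := by
    refine hVp.of_injective ((Subgroup.subtype C).comp q.ker.subtype |>.codRestrict V ?_) ?_
    · intro x
      exact hker (hqk x.1 x.2)
    · intro a b hab
      apply Subtype.ext
      apply Subtype.ext
      exact congrArg (fun t : V => (t : G)) hab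
  -- the defect group of the quotient
  obtain ⟨V', hV'⟩ : ∃ V' : Subgroup A, V' = V.map p := ⟨_, rfl⟩
  rw [← hV'] at hLd' ⊢
  obtain ⟨K, hK⟩ : ∃ K : Subgroup A, K = Subgroup.centralizer (V' : Set A) := ⟨_, rfl⟩
  have hmV : ∀ x : G, x ∈ V ↔ p x ∈ V' := by
    intro x
    rw [hV', Subgroup.mem_map]
    constructor
    · intro h
      exact ⟨x, h, rfl⟩
    · rintro ⟨w, hw, hwx⟩
      have h1 : p (x * w⁻¹) = 1 := by rw [map_mul, map_inv, hwx, mul_inv_cancel]
      have h3 := V.mul_mem (hker (MonoidHom.mem_ker.2 h1)) hw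
      rwa [inv_mul_cancel_right] at h3
  have hnV : ∀ x : G, x ∈ Subgroup.normalizer (V : Set G) →
      p x ∈ Subgroup.normalizer (V' : Set A) := by
    intro x hx
    rw [Subgroup.mem_normalizer_iff]
    intro y
    obtain ⟨v, rfl⟩ := hp y
    rw [← map_inv, ← map_mul, ← map_mul, ← hmV, ← hmV]
    exact Subgroup.mem_normalizer_iff.1 hx v
  have hcC : ∀ g ∈ Subgroup.normalizer (V : Set G), ∀ c ∈ C, g * c * g⁻¹ ∈ C := by
    intro g hg c hc
    rw [hC, Subgroup.mem_centralizer_iff] at hc ⊢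
    intro v hv
    have h1 : g⁻¹ * v * g ∈ V := by
      have h2 := (Subgroup.mem_normalizer_iff.1 (inv_mem hg) v).1 hv
      rwa [inv_inv] at h2
    have h2 := hc _ h1
    calc v * (g * c * g⁻¹) = g * ((g⁻¹ * v * g) * c) * g⁻¹ := by group
      _ = g * (c * (g⁻¹ * v * g)) * g⁻¹ := by rw [h2]
      _ = (g * c * g⁻¹) * v := by group
  have hnC : Subgroup.normalizer (V : Set G) ≤ Subgroup.normalizer (C : Set G) := by
    intro g hg
    rw [Subgroup.mem_normalizer_iff]
    intro c
    refine ⟨fun h => hcC g hg c h, fun h => ?_⟩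
    have h1 := hcC g⁻¹ (inv_mem hg) _ h
    have h2 : g⁻¹ * (g * c * g⁻¹) * g⁻¹⁻¹ = c := by group
    rwa [h2] at h1
  have hcK : ∀ g ∈ Subgroup.normalizer (V' : Set A), ∀ c ∈ K, g * c * g⁻¹ ∈ K := by
    intro g hg c hc
    rw [hK, Subgroup.mem_centralizer_iff] at hc ⊢
    intro v hv
    have h1 : g⁻¹ * v * g ∈ V' := by
      have h2 := (Subgroup.mem_normalizer_iff.1 (inv_mem hg) v).1 hv
      rwa [inv_inv] at h2
    have h2 := hc _ h1
    calc v * (g * c * g⁻¹) = g * ((g⁻¹ * v * g) * c) * g⁻¹ := by group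
      _ = g * (c * (g⁻¹ * v * g)) * g⁻¹ := by rw [h2]
      _ = (g * c * g⁻¹) * v := by group
  have hnK : Subgroup.normalizer (V' : Set A) ≤ Subgroup.normalizer (K : Set A) := by
    intro g hg
    rw [Subgroup.mem_normalizer_iff]
    intro c
    refine ⟨fun h => hcK g hg c h, fun h => ?_⟩
    have h1 := hcK g⁻¹ (inv_mem hg) _ h
    have h2 : g⁻¹ * (g * c * g⁻¹) * g⁻¹⁻¹ = c := by group
    rwa [h2] at h1
  have hKn : K ≤ Subgroup.normalizer (V' : Set A) := by
    rw [hK]
    exact Subgroup.centralizer_le_normalizer _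
  have hrK : q.range ≤ K := by
    rintro _ ⟨c, rfl⟩
    rw [hK, Subgroup.mem_centralizer_iff]
    intro v hv
    rw [hV'] at hv
    obtain ⟨w, hw, rfl⟩ := hv
    rw [hq]
    change p w * p c = p c * p w
    rw [← map_mul, ← map_mul]
    congr 1
    have h1 := hC.le c.2
    rw [Subgroup.mem_centralizer_iff] at h1
    exact h1 w hw
  -- (a)
  obtain ⟨n, hn⟩ := (IsPGroup.iff_card (p := ℓ) (G := V)).1 hVp
  have hpow : ∀ x : G, p x ∈ K → x ^ ℓ ^ n ∈ C := by
    intro x hx
    rw [hC, Subgroup.mem_centralizer_iff]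
    intro v hv
    rw [hK, Subgroup.mem_centralizer_iff] at hx
    have h1 := hx (p v) ((hmV v).1 hv)
    -- `x v = v z x`
    obtain ⟨z, hz⟩ : ∃ z : G, z = v⁻¹ * (x * v * x⁻¹) := ⟨_, rfl⟩
    have hzk : z ∈ p.ker := by
      rw [MonoidHom.mem_ker, hz, map_mul, map_mul, map_mul, map_inv, map_inv, ← h1]
      group
    have hzc : ∀ g : G, g * z = z * g := Subgroup.mem_center_iff.1 (hkz hzk)
    have hxv : x * v = v * z * x := by
      rw [hz]
      group
    have hk : ∀ k : ℕ, x ^ k * v = v * z ^ k * x ^ k := by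
      intro k
      induction k with
      | zero => simp
      | succ k ih =>
        have h5 : Commute x (z ^ k) := Commute.pow_right (hzc x) k
        rw [pow_succ', mul_assoc, ih, ← mul_assoc, ← mul_assoc, hxv]
        have h6 : v * z * x * z ^ k = v * z * (z ^ k * x) := by
          rw [mul_assoc, h5.eq]
        rw [h6, pow_succ' z]
        group
    have hz1 : z ^ ℓ ^ n = 1 := by
      have h6 := pow_card_eq_one' (x := (⟨z, hker hzk⟩ : V))
      rw [hn] at h6
      exact congrArg Subtype.val h6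
    have h7 := hk (ℓ ^ n)
    rw [hz1, mul_one] at h7
    exact h7.symm
  have hpowR : ∀ x ∈ K, x ^ ℓ ^ n ∈ q.range := by
    intro x hx
    obtain ⟨g, rfl⟩ := hp x
    refine ⟨⟨g ^ ℓ ^ n, hpow g hx⟩, ?_⟩
    rw [hq]
    change p (g ^ ℓ ^ n) = _
    rw [map_pow]
  -- the image of `e`
  have hbr : br V' (push p e) = push q (fun t : C => e t) := by
    funext y
    by_cases hy : y ∈ K
    · have hy' : y ∈ Subgroup.centralizer (((V.map p : Subgroup A)) : Set A) := by
        rw [← hV', ← hK]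
        exact hy
      rw [br_in _ (by rw [← hK]; exact hy), K9.H02.push_br hF hVp he.1 hy',
        push_sub (C := C) p (a := br V e) (by
        intro x hx
        rw [hC] at hx
        exact br_out e hx), ← hq]
      congr 1
      funext t
      apply br_in
      rw [← hC]
      exact t.2
    · rw [br_out _ (by rw [← hK]; exact hy)]
      symm
      have := Fintype.ofFinite C
      rw [push_eq]
      refine Finset.sum_eq_zero fun x _ => ?_
      rw [if_neg]
      rintro rfl
      exact hy (hrK ⟨x, rfl⟩)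
  have hBγ : Bx K γ' := hK ▸ hLd'.gam
  have hbrm := H20.brm ℓ (FF M) hF A V' K hLd'.tp.pg hK.ge hKn
  have hIf : Ix K (br V' (push p e)) := by
    refine ⟨?_, hbrm.2.2 _ hLd'.blk.1⟩
    intro x hx
    rw [hK] at hx
    exact br_out _ hx
  have hund2 : mulF γ' (push q (fun t : C => e t)) = γ' := by
    rw [← hbr, hBγ.ix.comm hIf, hLd'.und]
  -- the block of the centraliser of `V`
  have heC : IsIdem (fun t : C => e t) := by
    have h1 := (H20.brm ℓ (FF M) hF G V C hVp hC.ge hCN).2.2 e he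
    have h2 : (fun t : C => br V e t) = fun t : C => e t := by
      funext t
      apply br_in
      rw [← hC]
      exact t.2
    rwa [h2] at h1
  obtain ⟨d0, hd0, hd01, hd02⟩ := K9.H24.exists_blk (fun a : C → FF M => mulF γ' (push q a))
    (by
      change mulF γ' (push q 0) = 0
      rw [push_zero]
      exact H46.mulF_zero _)
    (fun a b => by
      change mulF γ' (push q (a + b)) = mulF γ' (push q a) + mulF γ' (push q b)
      rw [T3.H43.push_add]
      exact H46.mulF_add _ _ _) heC (by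
      change mulF γ' (push q (fun t : C => e t)) ≠ 0
      rw [hund2]
      exact hBγ.ne)
  change mulF γ' (push q d0) ≠ 0 at hd02
  obtain ⟨δ, hδ⟩ : ∃ δ : G → FF M, δ = H75.ext0 C d0 := ⟨_, rfl⟩
  have hδs : ∀ x, x ∉ C → δ x = 0 := by
    rw [hδ]
    exact H75.ext0_supp C d0
  have hδC : (fun t : C => δ t) = d0 := by
    rw [hδ]
    exact funext (H75.ext0_apply C d0)
  have hBδ : Bx C δ := ⟨hδs, by rw [hδC]; exact hd0⟩
  have hbsV : ∀ x, x ∉ C → br V e x = 0 := by
    intro x hx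
    rw [hC] at hx
    exact br_out e hx
  have hund3 : mulF (br V e) δ = δ := by
    apply H75.eq_of_res (H75.mulF_supp C hbsV hδs) hδs
    rw [H75.mulF_res C δ hbsV, hδC]
    have h2 : (fun t : C => br V e t) = fun t : C => e t := by
      funext t
      apply br_in
      rw [← hC]
      exact t.2
    rw [h2, hd01]
  obtain ⟨-, ⟨hbN, -⟩, -⟩ := K9.H69.fmg ℓ M hM G e hLd.blk V hLd.tp
  have hXN : Subgroup.centralizer (V : Set G) ≤ Subgroup.normalizer (V : Set G) :=
    Subgroup.centralizer_le_normalizer _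
  obtain ⟨n₀, hn₀, hγδ⟩ := orb_main hXN (hC ▸ hnC) (f := br V e)
    ⟨fun x hx => H66.br_of_not_mem fun h2 => hx (hXN h2), hbN⟩ hLd.gam (hC ▸ hBδ) hLd.und hund3
  -- the image of `δ`
  obtain ⟨P, hP⟩ : ∃ P : A → FF M, P = push p δ := ⟨_, rfl⟩
  have hPq : P = push q d0 := by
    rw [hP, push_sub p hδs, ← hq, hδC]
  have hBP : Bx q.range P := by
    rw [hPq]
    exact push_blk psg hF q hqc hqp hd0
  have hI : ∀ {a : A → FF M}, Ix K a → Ix q.range a := by
    intro a ha
    have hs := supp_sub hF n hpowR ha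
    refine ⟨hs, ?_, ?_⟩
    · intro x y
      exact (cj_eq_iff _ _).1 (ha.inv (hrK y.2)) x
    · rw [← mulF_res q.range a hs, ha.mul]
  have hfix : mulF γ' P = P := by
    rw [(hI hBγ.ix).comm hBP.ix]
    rcases hBP.dich' (hI hBγ.ix) with h | h
    · exact h
    · exfalso
      apply hd02
      rw [← hPq, (hI hBγ.ix).comm hBP.ix, h]
  have hPcj : ∀ t : G, H75.cj t δ = δ → H75.cj (p t) P = P := by
    intro t ht
    rw [hP, ← T3.H43.push_cj, ht]
  have hTg : ∀ t ∈ Tg V δ, p t ∈ Tg V' γ' := by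
    intro t ht
    obtain ⟨ht1, ht2⟩ := Subgroup.mem_inf.1 ht
    have h1 : H75.cj t δ = δ := (cj_eq_iff _ _).2 ht2
    refine Subgroup.mem_inf.2 ⟨hnV t ht1, ?_⟩
    apply (cj_eq_iff _ _).1
    have hB2 : Bx K (H75.cj (p t) γ') := hBγ.cj (hnK (hnV t ht1))
    rcases hBγ.dich hB2 with h | h
    · exact h.symm
    · exfalso
      apply hBP.ne
      have h2 : mulF (H75.cj (p t) γ') P = P := by
        conv_lhs => rw [← hPcj t h1]
        rw [← cj_mulF, hfix, hPcj t h1]
      rw [← hfix, ← h2, ← H20.mulF_assoc, h, mulF_zero_left]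
  -- the comparison
  have hinx : ¬ ℓ ∣ ix V γ := inx ℓ M hM G e hLd.blk V hLd.tp hLd.ab γ hLd.gam.supp hLd.gam.blk
    hLd.und
  have hco : ∀ t ∈ Tg V γ, p t ∈ K → t ∈ C := by
    intro t ht htK
    have h1 := hpow t htK
    have hnorm : (C.subgroupOf (Tg V γ)).Normal := by
      refine ⟨?_⟩
      intro c hc g
      rw [Subgroup.mem_subgroupOf] at hc ⊢
      exact hcC g (Subgroup.mem_inf.1 g.2).1 c hc
    have h2 : t ^ ix V γ ∈ C := by
      have h3 := (C.subgroupOf (Tg V γ)).pow_index_mem (⟨t, ht⟩ : Tg V γ)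
      rw [Subgroup.mem_subgroupOf] at h3
      unfold ix Subgroup.relIndex
      rw [← hC]
      exact h3
    have hcop : (ℓ ^ n).Coprime (ix V γ) := by
      apply Nat.Coprime.pow_left
      exact (Nat.Prime.coprime_iff_not_dvd Fact.out).2 hinx
    have hbz := Nat.gcd_eq_gcd_ab (ℓ ^ n) (ix V γ)
    rw [hcop.gcd_eq_one] at hbz
    have h4 : t = t ^ (((ℓ ^ n : ℕ) : ℤ) * Nat.gcdA (ℓ ^ n) (ix V γ)) *
        t ^ (((ix V γ : ℕ) : ℤ) * Nat.gcdB (ℓ ^ n) (ix V γ)) := by
      rw [← zpow_add, ← hbz, Nat.cast_one, zpow_one]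
    rw [h4, zpow_mul, zpow_mul, zpow_natCast, zpow_natCast]
    exact C.mul_mem (C.zpow_mem h1 _) (C.zpow_mem h2 _)
  unfold ix
  rw [← hC, ← hK]
  refine relIndex_le_of C (Tg V γ) K (Tg V' γ') (fun t => p (n₀ * t * n₀⁻¹)) ?_ ?_
  · intro t ht
    apply hTg
    obtain ⟨ht1, ht2⟩ := Subgroup.mem_inf.1 ht
    refine Subgroup.mem_inf.2 ⟨mul_mem (mul_mem hn₀ ht1) (inv_mem hn₀), ?_⟩
    apply (cj_eq_iff _ _).1
    rw [hγδ, cj_cj]
    have h1 : n₀ * t * n₀⁻¹ * n₀ = n₀ * t := by group
    rw [h1, ← cj_cj, (cj_eq_iff _ _).2 ht2]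
  · intro t ht s hs h
    apply hco _ ((Tg V γ).mul_mem ((Tg V γ).inv_mem ht) hs)
    have h1 := hcK (p n₀)⁻¹ (inv_mem (hnV n₀ hn₀)) _ h
    have h2 : (p n₀)⁻¹ * ((p (n₀ * t * n₀⁻¹))⁻¹ * p (n₀ * s * n₀⁻¹)) * (p n₀)⁻¹⁻¹ =
        p (t⁻¹ * s) := by
      simp only [map_mul, map_inv]
      group
    rwa [h2] at h1

end Pool.Agent.PFC.H22
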